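import Pool.Agent.H4.FV.OddT

set_option autoImplicit false
set_option linter.unusedVariables false
set_option linter.unusedSectionVars false

/-! The graph is definable. -/

namespace Pool.Agent.H974.FV

open FirstOrder FirstOrder.Language
open Pool.Agent.W889.FO
open Pool.Agent.W889.FO.StA (FD.all1 FD.ex1)
open Pool.Agent.N649.SG.Light (pw)
open Pool.Agent.H4.VG
open Pool.Agent.H4.FV.Odd (Ind InS Tri Vt Ev Qd Aj iv S_fd S_def)

section

variable {α β : Type} {t0 t1 t2 t3 : LR.Structure ℕ → (α → ℕ) → ℕ}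

theorem ft_pw (h0 : FT t0) (n : ℕ) : FT (fun S v => pw (ml S) (t0 S v) n) := by
  induction n with
  | zero => exact h0
  | succ n ih => exact ih.mul h0

theorem ft_cm' (p : ℕ) (h0 : FT t0) (h1 : FT t1) :
    FT (fun S v => Pool.Agent.H4.FV.Odd.cm p (ml S) (t0 S v) (t1 S v)) :=
  ((h0.mul h1).mul (ft_pw h0 (p - 2))).mul (ft_pw h1 (p - 2))

theorem fd_ind3 (h : S_fd) (p : ℕ) [Fact p.Prime] (h0 : FT t0) (h1 : FT t1) (h2 : FT t2) :
    FD (St0.W (L := LM)) (fun S v => Ind p (ml S) ![t0 S v, t1 S v, t2 S v]) := by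
  have hu : ∀ i : Fin 3, FT ((![t0, t1, t2] : Fin 3 → LR.Structure ℕ → (α → ℕ) → ℕ) i) := by
    intro i
    fin_cases i
    · exact h0
    · exact h1
    · exact h2
  refine (h p (Fin 3) α ![t0, t1, t2] t0 0 0 hu h0).2.2.1.congr fun S _ v => ?_
  have e : (fun i => (![t0, t1, t2] : Fin 3 → LR.Structure ℕ → (α → ℕ) → ℕ) i S v) =
      ![t0 S v, t1 S v, t2 S v] := by
    funext i
    fin_cases i <;> rfl
  rw [e]

theorem fd_ind4 (h : S_fd) (p : ℕ) [Fact p.Prime] (h0 : FT t0) (h1 : FT t1) (h2 : FT t2)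
    (h3 : FT t3) :
    FD (St0.W (L := LM)) (fun S v => Ind p (ml S) ![t0 S v, t1 S v, t2 S v, t3 S v]) := by
  have hu : ∀ i : Fin 4, FT ((![t0, t1, t2, t3] : Fin 4 → LR.Structure ℕ → (α → ℕ) → ℕ) i) := by
    intro i
    fin_cases i
    · exact h0
    · exact h1
    · exact h2
    · exact h3
  refine (h p (Fin 4) α ![t0, t1, t2, t3] t0 0 0 hu h0).2.2.1.congr fun S _ v => ?_
  have e : (fun i => (![t0, t1, t2, t3] : Fin 4 → LR.Structure ℕ → (α → ℕ) → ℕ) i S v) =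
      ![t0 S v, t1 S v, t2 S v, t3 S v] := by
    funext i
    fin_cases i <;> rfl
  rw [e]

theorem fd_tri (h : S_fd) (p : ℕ) [Fact p.Prime] (h0 : FT t0) (h1 : FT t1) (h2 : FT t2) :
    FD (St0.W (L := LM)) (fun S v => Tri p (ml S) (t0 S v) (t1 S v) (t2 S v)) :=
  (eqT (h0.mul h1) (h1.mul h0)).and ((eqT (h0.mul h2) (h2.mul h0)).and (fd_ind3 h p h0 h1 h2))

theorem fd_vt (h : S_fd) (p : ℕ) [Fact p.Prime] (h0 : FT t0) :
    FD (St0.W (L := LM)) (fun S v => Vt p (ml S) (t0 S v)) :=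
  FD.ex1 (P := fun S v y => ∃ z, Tri p (ml S) (t0 S v) y z) <|
  FD.ex1 (P := fun S w z => Tri p (ml S) (t0 S (fun i => w (Sum.inl i))) (w (Sum.inr ())) z) <|
  fd_tri h p (h0.sub (fun i => Sum.inl (Sum.inl i))) (FT.var (Sum.inl (Sum.inr ())))
    (FT.var (Sum.inr ()))

theorem fd_ev (h : S_fd) (p : ℕ) [Fact p.Prime] (h0 : FT t0) (h1 : FT t1) :
    FD (St0.W (L := LM)) (fun S v => Ev p (ml S) (t0 S v) (t1 S v)) :=
  (h p (Fin 1) α (fun _ => t0) t1 0 0 (fun _ => h0) h1).2.2.2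

theorem fd_qd (h : S_fd) (p : ℕ) [Fact p.Prime] (h0 : FT t0) (h1 : FT t1) (h2 : FT t2)
    (h3 : FT t3) :
    FD (St0.W (L := LM)) (fun S v => Qd p (ml S) (t0 S v) (t1 S v) (t2 S v) (t3 S v)) :=
  (fd_vt h p h0).and <| (fd_vt h p h1).and <| (fd_ind4 h p h0 h1 h2 h3).and <|
  FD.all1 (P := fun S v e => ml S e e = e →
    ml S (Pool.Agent.H4.FV.Odd.cm p (ml S) (t0 S v) (t1 S v))
      (Pool.Agent.H4.FV.Odd.cm p (ml S) (t2 S v) (t3 S v)) = e) <|
  (eqT ((FT.var (Sum.inr ())).mul (FT.var (Sum.inr ()))) (FT.var (Sum.inr ()))).imp <|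
  eqT ((ft_cm' p (h0.sub Sum.inl) (h1.sub Sum.inl)).mul
    (ft_cm' p (h2.sub Sum.inl) (h3.sub Sum.inl))) (FT.var (Sum.inr ()))

theorem fd_aj (h : S_fd) (p : ℕ) [Fact p.Prime] (h0 : FT t0) (h1 : FT t1) :
    FD (St0.W (L := LM)) (fun S v => Aj p (ml S) (t0 S v) (t1 S v)) :=
  FD.ex1 (P := fun S v a => ∃ b, Qd p (ml S) (t0 S v) (t1 S v) a b) <|
  FD.ex1 (P := fun S w b => Qd p (ml S) (t0 S (fun i => w (Sum.inl i)))
    (t1 S (fun i => w (Sum.inl i))) (w (Sum.inr ())) b) <|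
  fd_qd h p (h0.sub (fun i => Sum.inl (Sum.inl i))) (h1.sub (fun i => Sum.inl (Sum.inl i)))
    (FT.var (Sum.inl (Sum.inr ()))) (FT.var (Sum.inr ()))

end

/-- the graph is definable -/
theorem df (h : S_fd) : S_def := by
  intro p _
  exact ⟨fd_vt h p (FT.var ()), fd_ev h p (FT.var 0) (FT.var 1), fd_aj h p (FT.var 0) (FT.var 1)⟩

end Pool.Agent.H974.FV
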